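import Mathlib
import Pool.Agent.TH949.TX.SDefs
import Pool.Agent.TH949.TX.Expl

/-! Gaussian line integral of `D(s)/s` (for helper949, project TX). -/

set_option autoImplicit false

open Complex MeasureTheory Set Filter Topology
open Pool.Agent.W189.TP (DS)

namespace Pool.Agent.TH406.TXU

open Pool.Agent.TH949.TX

theorem prodL {κ a : ℝ} (hκ : 0 < κ) {z : ℂ} (hz : z.re < a) (Y l : ℝ) :
    Integrable (Function.uncurry fun (v u : ℝ) => EE κ Y a v * cexp ((z - (a + v * I)) * u))
      ((volume : Measure ℝ).prod (volume.restrict (Ioi l))) := by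
  have h1 : Integrable (fun v : ℝ => Real.exp (κ * a ^ 2 + a * Y) * Real.exp (-κ * v ^ 2)) :=
    (integrable_exp_neg_mul_sq hκ).const_mul _
  have h2 : Integrable (fun u : ℝ => Real.exp ((z.re - a) * u)) (volume.restrict (Ioi l)) :=
    integrableOn_exp_mul_Ioi (by linarith) l
  refine (h1.mul_prod h2).mono' ?_ ?_
  · apply Continuous.aestronglyMeasurable
    have := _root_.TH656.TX.cont_EE κ Y a
    unfold Function.uncurry
    fun_prop
  · refine Filter.Eventually.of_forall fun p => ?_
    obtain ⟨v, u⟩ := p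
    simp only [Function.uncurry]
    rw [norm_mul, _root_.TH656.TX.norm_EE, Complex.norm_exp]
    apply le_of_eq
    congr 2
    simp

theorem ne0 {s : ℂ} {a : ℝ} (ha : 0 < s.re + a) (v : ℝ) : s + ((a : ℂ) + v * I) ≠ 0 := by
  intro h
  have := congrArg Complex.re h
  simp at this
  linarith

theorem term_int {κ a : ℝ} (hκ : 0 < κ) {s : ℂ} (ha : 0 < s.re + a) (Y l : ℝ) :
    ∫ v : ℝ, cexp (-((s + ((a : ℂ) + v * I)) * l)) / (s + ((a : ℂ) + v * I)) * EE κ Y a v =
      2 * Real.pi * ∫ u in Ioi l, cexp (-(s * u)) * (gk κ (u - Y) : ℂ) := by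
  have hz : (-s).re < a := by rw [Complex.neg_re]; linarith
  have hP := prodL hκ hz Y l
  have h1 : (∫ v : ℝ, cexp (-((s + ((a : ℂ) + v * I)) * l)) / (s + ((a : ℂ) + v * I)) * EE κ Y a v) =
      ∫ v : ℝ, ∫ u in Ioi l, EE κ Y a v * cexp ((-s - (a + v * I)) * u) := by
    refine integral_congr_ae (Filter.Eventually.of_forall fun v => ?_)
    simp only
    rw [integral_const_mul, integral_exp_mul_complex_Ioi (by simp; linarith)]
    have h0 := ne0 ha v
    have h2 : -s - ((a : ℂ) + v * I) = -(s + ((a : ℂ) + v * I)) := by ring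
    rw [h2, neg_mul, neg_div_neg_eq]
    ring
  rw [h1, integral_integral_swap hP, ← integral_const_mul]
  refine integral_congr_ae (Filter.Eventually.of_forall fun u => ?_)
  simp only
  rw [_root_.TH656.TX.inner_v hκ Y u, neg_mul]

theorem t_usum {ι : Type*} [Countable ι] {d L : ι → ℝ} (hL : ∀ i, 0 ≤ L i) {κ : ℝ} (hκ : 0 < κ) {s : ℂ} {a : ℝ}
    (ha : 0 < s.re + a) (hs : Summable fun i => |d i| * Real.exp (-((s.re + a) * L i))) (Y : ℝ) :
    Integrable (fun v : ℝ => DS d L (s + ((a : ℂ) + v * I)) / (s + ((a : ℂ) + v * I)) * EE κ Y a v) ∧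
    ∫ v : ℝ, DS d L (s + ((a : ℂ) + v * I)) / (s + ((a : ℂ) + v * I)) * EE κ Y a v =
      2 * Real.pi * JA d L s κ Y := by
  classical
  have hre : ∀ v : ℝ, (s + ((a : ℂ) + v * I)).re = s.re + a := fun v => by simp
  have hE := Pool.Agent.TH443.TXSum.ee_int hκ Y a
  have hn : ∀ (i : ι) (v : ℝ), ‖(d i : ℂ) *
      cexp (-((s + ((a : ℂ) + v * I)) * L i))‖ = |d i| * Real.exp (-((s.re + a) * L i)) :=
    fun i v => by
      rw [Pool.Agent.W189.TP.norm_term d L _ i, hre]
  have hcont : Continuous (fun v : ℝ => DS d L (s + ((a : ℂ) + v * I))) := by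
    unfold DS
    refine continuous_tsum (fun i => by fun_prop) hs fun i v => ?_
    rw [hn]
  have hb : ∀ v : ℝ, ‖DS d L (s + ((a : ℂ) + v * I))‖ ≤
      ∑' i, |d i| * Real.exp (-((s.re + a) * L i)) := by
    intro v
    refine tsum_of_norm_bounded hs.hasSum fun i => ?_
    rw [hn]
  have hnv : ∀ v : ℝ, s.re + a ≤ ‖s + ((a : ℂ) + v * I)‖ := by
    intro v
    rw [← hre v]
    exact Complex.re_le_norm _
  have hi : ∀ v : ℝ, ‖(s + ((a : ℂ) + v * I))⁻¹‖ ≤ (s.re + a)⁻¹ := by
    intro v
    rw [norm_inv]
    exact inv_anti₀ ha (hnv v)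
  have hic : Continuous (fun v : ℝ => (s + ((a : ℂ) + v * I))⁻¹) :=
    Continuous.inv₀ (by fun_prop) fun v => ne0 ha v
  have hB0 : 0 ≤ ∑' i, |d i| * Real.exp (-((s.re + a) * L i)) := tsum_nonneg fun i => by positivity
  constructor
  · refine hE.bdd_mul (c := (∑' i, |d i| * Real.exp (-((s.re + a) * L i))) * (s.re + a)⁻¹) ?_ ?_
    · simp_rw [div_eq_mul_inv]
      exact (hcont.mul hic).aestronglyMeasurable
    · refine Eventually.of_forall fun v => ?_
      rw [div_eq_mul_inv, norm_mul]
      exact mul_le_mul (hb v) (hi v) (norm_nonneg _) hB0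
  · have hF : ∀ i, Integrable (fun v : ℝ => (d i : ℂ) *
        cexp (-((s + ((a : ℂ) + v * I)) * L i)) / (s + ((a : ℂ) + v * I)) * EE κ Y a v) := by
      intro i
      refine hE.bdd_mul (c := (|d i| * Real.exp (-((s.re + a) * L i))) * (s.re + a)⁻¹) ?_ ?_
      · simp_rw [div_eq_mul_inv]
        refine Continuous.aestronglyMeasurable (Continuous.mul (by fun_prop) hic)
      · refine Eventually.of_forall fun v => ?_
        rw [div_eq_mul_inv, norm_mul, hn]
        exact mul_le_mul_of_nonneg_left (hi v) (by positivity)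
    have hS : Summable fun i => ∫ v : ℝ, ‖(d i : ℂ) *
        cexp (-((s + ((a : ℂ) + v * I)) * L i)) / (s + ((a : ℂ) + v * I)) * EE κ Y a v‖ := by
      refine Summable.of_nonneg_of_le (fun i => integral_nonneg fun v => norm_nonneg _) (fun i => ?_)
        (hs.mul_right ((s.re + a)⁻¹ * ∫ v : ℝ, ‖EE κ Y a v‖))
      rw [← mul_assoc, ← integral_const_mul]
      refine integral_mono (hF i).norm (hE.norm.const_mul _) fun v => ?_
      simp only
      rw [norm_mul, div_eq_mul_inv, norm_mul, hn]
      exact mul_le_mul_of_nonneg_right (mul_le_mul_of_nonneg_left (hi v) (by positivity)) (norm_nonneg _)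
    have h := hasSum_integral_of_summable_integral_norm hF hS
    have h1 : (fun v : ℝ => ∑' i, (d i : ℂ) *
        cexp (-((s + ((a : ℂ) + v * I)) * L i)) / (s + ((a : ℂ) + v * I)) * EE κ Y a v) =
        fun v : ℝ => DS d L (s + ((a : ℂ) + v * I)) / (s + ((a : ℂ) + v * I)) * EE κ Y a v := by
      funext v
      rw [tsum_mul_right, tsum_div_const]
      rfl
    rw [h1] at h
    -- the right side
    set gg : ℝ → ℂ := fun u => cexp (-(s * u)) * (gk κ (u - Y) : ℂ) with hgg
    have hggi : Integrable gg := by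
      have := _root_.TH656.TX.shift_int hκ Y (-s)
      simpa only [neg_mul] using this
    have hai : Integrable (fun u : ℝ => Real.exp (a * u) * gk κ (u - Y)) := by
      have := (_root_.TH656.TX.shift_int hκ Y (a : ℂ)).norm
      refine this.congr (Eventually.of_forall fun u => ?_)
      simp only
      rw [norm_mul, Complex.norm_exp, Complex.norm_real, Real.norm_of_nonneg (gk_nn κ _)]
      simp
    have hG : ∀ i, Integrable (fun u : ℝ => (((if L i ≤ u then d i else 0 : ℝ)) : ℂ) * gg u) := by
      intro i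
      have h3 : (fun u : ℝ => (((if L i ≤ u then d i else 0 : ℝ)) : ℂ) * gg u) =
          (Ici (L i)).indicator (fun u => (d i : ℂ) * gg u) := by
        funext u
        by_cases hu : L i ≤ u
        · rw [indicator_of_mem (by exact hu), if_pos hu]
        · rw [indicator_of_notMem (by exact hu), if_neg hu]
          simp
      rw [h3]
      exact (hggi.const_mul _).indicator measurableSet_Ici
    have hGv : ∀ i, ∫ u : ℝ, (((if L i ≤ u then d i else 0 : ℝ)) : ℂ) * gg u =
        (d i : ℂ) * ∫ u in Ioi (L i), gg u := by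
      intro i
      have h3 : (fun u : ℝ => (((if L i ≤ u then d i else 0 : ℝ)) : ℂ) * gg u) =
          (Ici (L i)).indicator (fun u => (d i : ℂ) * gg u) := by
        funext u
        by_cases hu : L i ≤ u
        · rw [indicator_of_mem (by exact hu), if_pos hu]
        · rw [indicator_of_notMem (by exact hu), if_neg hu]
          simp
      rw [h3, integral_indicator measurableSet_Ici, integral_Ici_eq_integral_Ioi, integral_const_mul]
    have hGS : Summable fun i => ∫ u : ℝ, ‖(((if L i ≤ u then d i else 0 : ℝ)) : ℂ) * gg u‖ := by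
      refine Summable.of_nonneg_of_le (fun i => integral_nonneg fun v => norm_nonneg _) (fun i => ?_)
        (hs.mul_right (∫ u : ℝ, Real.exp (a * u) * gk κ (u - Y)))
      rw [← integral_const_mul]
      refine integral_mono (hG i).norm (hai.const_mul _) fun u => ?_
      simp only
      by_cases hu : L i ≤ u
      · rw [if_pos hu, hgg]
        simp only
        rw [norm_mul, norm_mul, Complex.norm_exp, Complex.norm_real, Complex.norm_real,
          Real.norm_of_nonneg (gk_nn κ _), Real.norm_eq_abs]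
        have e1 : (-(s * (u : ℂ))).re = -(s.re * u) := by simp
        rw [e1]
        have e2 : Real.exp (-(s.re * u)) ≤ Real.exp (-((s.re + a) * L i)) * Real.exp (a * u) := by
          rw [← Real.exp_add]
          refine Real.exp_le_exp.2 ?_
          nlinarith
        calc |d i| * (Real.exp (-(s.re * u)) * gk κ (u - Y)) ≤
            |d i| * (Real.exp (-((s.re + a) * L i)) * Real.exp (a * u) * gk κ (u - Y)) :=
              mul_le_mul_of_nonneg_left (mul_le_mul_of_nonneg_right e2 (gk_nn κ _)) (abs_nonneg _)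
          _ = _ := by ring
      · rw [if_neg hu]
        have := gk_nn κ (u - Y)
        simp only [Complex.ofReal_zero, zero_mul, norm_zero]
        positivity
    have h2 := hasSum_integral_of_summable_integral_norm hG hGS
    have h3 : (fun u : ℝ => ∑' i, (((if L i ≤ u then d i else 0 : ℝ)) : ℂ) * gg u) =
        fun u : ℝ => (AA d L u : ℂ) * Complex.exp (-(s * u)) * (gk κ (u - Y) : ℂ) := by
      funext u
      rw [tsum_mul_right, ← Complex.ofReal_tsum, hgg, mul_assoc]
      unfold AA
      congr!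
    rw [h3] at h2
    rw [← h.tsum_eq, JA, ← h2.tsum_eq, ← tsum_mul_left]
    refine tsum_congr fun i => ?_
    rw [hGv i]
    have h4 := term_int hκ ha Y (L i)
    have h5 : ∀ v : ℝ, (d i : ℂ) * cexp (-((s + ((a : ℂ) + v * I)) * L i)) / (s + ((a : ℂ) + v * I)) *
        EE κ Y a v = (d i : ℂ) * (cexp (-((s + ((a : ℂ) + v * I)) * L i)) / (s + ((a : ℂ) + v * I)) *
        EE κ Y a v) := fun v => by ring
    simp_rw [h5]
    rw [integral_const_mul, h4]
    ring
where
  gk_nn (κ u : ℝ) : 0 ≤ gk κ u := by
    unfold gk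
    positivity

end Pool.Agent.TH406.TXU
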